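import Mathlib

/-!
# Universal projective algebras of plane sets

There is no countable projective algebra of plane sets into which every countable one embeds: the
least cardinality of a projective algebra of plane sets which is universal for the countable ones is
the cardinality of the continuum.

Lower bound: let `G` be the set of the points `(n, n)` and `(n + 1, n)`, `n : ℕ`. The singletons
`{(n, 0)}` are obtained from `G` by terms `A n` (starting at the origin, the intersection of the two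
axes). Hence for `s ⊆ ℕ` and `P = s × {0}` the algebra generated by `G` and `P` determines `s`: the
set `A n ∩ P` is nonempty iff `n ∈ s`. An embedding of this algebra is determined by the images of
`G` and `P`, so there are continuum many pairs of members of a universal algebra.

Upper bound: there are at most continuum many countable projective algebras up to isomorphism.
-/

set_option autoImplicit false

namespace Pool.Agent.Results.MP_3db952_lc.UniversalContinuum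

open Set

open scoped Cardinal

/-- The Euclidean plane. -/
abbrev Plane : Type := ℝ × ℝ

/-- The axis `X`. -/
def axisX : Set Plane := {p | p.2 = 0}

/-- The axis `Y`. -/
def axisY : Set Plane := {p | p.1 = 0}

/-- The projection `π₁`. -/
def pr1 (S : Set Plane) : Set Plane := {p | p.2 = 0 ∧ ∃ y : ℝ, (p.1, y) ∈ S}

/-- The projection `π₂`. -/
def pr2 (S : Set Plane) : Set Plane := {p | p.1 = 0 ∧ ∃ x : ℝ, (x, p.2) ∈ S}

/-- The direct product `A ⊗ B` (used for `A ⊆ X` and `B ⊆ Y`). -/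
def dprod (A B : Set Plane) : Set Plane := {p | (p.1, 0) ∈ A ∧ (0, p.2) ∈ B}

/-- `𝒜` is a projective algebra of plane sets. -/
structure IsProjAlg (𝒜 : Set (Set Plane)) : Prop where
  nonempty : 𝒜.Nonempty
  union : ∀ S ∈ 𝒜, ∀ T ∈ 𝒜, S ∪ T ∈ 𝒜
  inter : ∀ S ∈ 𝒜, ∀ T ∈ 𝒜, S ∩ T ∈ 𝒜
  compl : ∀ S ∈ 𝒜, Sᶜ ∈ 𝒜
  pr1 : ∀ S ∈ 𝒜, pr1 S ∈ 𝒜
  pr2 : ∀ S ∈ 𝒜, pr2 S ∈ 𝒜
  dprod : ∀ A ∈ 𝒜, ∀ B ∈ 𝒜, A ⊆ axisX → B ⊆ axisY → dprod A B ∈ 𝒜

/-- The bijection `f` from `𝒜` to `ℬ` preserves the Boolean operations, `π₁`, `π₂` and `⊗`. -/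
structure IsIso (𝒜 ℬ : Set (Set Plane)) (f : 𝒜 ≃ ℬ) : Prop where
  union : ∀ S T R : 𝒜, (R : Set Plane) = (S : Set Plane) ∪ (T : Set Plane) →
    (f R : Set Plane) = (f S : Set Plane) ∪ (f T : Set Plane)
  inter : ∀ S T R : 𝒜, (R : Set Plane) = (S : Set Plane) ∩ (T : Set Plane) →
    (f R : Set Plane) = (f S : Set Plane) ∩ (f T : Set Plane)
  compl : ∀ S R : 𝒜, (R : Set Plane) = (S : Set Plane)ᶜ → (f R : Set Plane) = (f S : Set Plane)ᶜ
  pr1 : ∀ S R : 𝒜, (R : Set Plane) = pr1 S → (f R : Set Plane) = pr1 (f S)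
  pr2 : ∀ S R : 𝒜, (R : Set Plane) = pr2 S → (f R : Set Plane) = pr2 (f S)
  dprod : ∀ A B R : 𝒜, (A : Set Plane) ⊆ axisX → (B : Set Plane) ⊆ axisY →
    (R : Set Plane) = dprod A B → (f R : Set Plane) = dprod (f A) (f B)

/-- `𝒜` embeds in `𝒰`: it is isomorphic to a subalgebra of `𝒰`. -/
def Embeds (𝒜 𝒰 : Set (Set Plane)) : Prop :=
  ∃ ℬ : Set (Set Plane), ℬ ⊆ 𝒰 ∧ IsProjAlg ℬ ∧ ∃ f : 𝒜 ≃ ℬ, IsIso 𝒜 ℬ f

/-- The projective algebra `𝒰` is universal: every countable projective algebra embeds in `𝒰`. -/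
def IsUniversal (𝒰 : Set (Set Plane)) : Prop :=
  IsProjAlg 𝒰 ∧ ∀ 𝒜 : Set (Set Plane), IsProjAlg 𝒜 → 𝒜.Countable → Embeds 𝒜 𝒰

/-! ### Generated algebras -/

/-- The function symbols. -/
inductive Fn : ℕ → Type
  | union : Fn 2
  | inter : Fn 2
  | compl : Fn 1
  | pr1 : Fn 1
  | pr2 : Fn 1
  | dprod : Fn 2

/-- The language with these function symbols. -/
def L : FirstOrder.Language := ⟨Fn, fun _ => Empty⟩

instance : L.Structure (Set Plane) where
  funMap {_} f := match f with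
    | Fn.union => fun v => v 0 ∪ v 1
    | Fn.inter => fun v => v 0 ∩ v 1
    | Fn.compl => fun v => (v 0)ᶜ
    | Fn.pr1 => fun v => pr1 (v 0)
    | Fn.pr2 => fun v => pr2 (v 0)
    | Fn.dprod => fun v => dprod (v 0) (v 1)
  RelMap {_} r := r.elim

/-- The symbols are countable. -/
instance : Countable (Σ n, L.Functions n) := by
  have : Function.Injective (fun x : (Σ n, L.Functions n) => match x with
    | ⟨_, Fn.union⟩ => (0 : ℕ)
    | ⟨_, Fn.inter⟩ => 1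
    | ⟨_, Fn.compl⟩ => 2
    | ⟨_, Fn.pr1⟩ => 3
    | ⟨_, Fn.pr2⟩ => 4
    | ⟨_, Fn.dprod⟩ => 5) := by
    rintro ⟨_, x⟩ ⟨_, y⟩ h
    cases x <;> cases y <;> simp_all
  exact this.countable

/-- The algebra generated by `s`. -/
def gen (s : Set (Set Plane)) : Set (Set Plane) :=
  (FirstOrder.Language.Substructure.closure L s : Set (Set Plane))

theorem subset_gen (s : Set (Set Plane)) : s ⊆ gen s :=
  FirstOrder.Language.Substructure.subset_closure

theorem gen_isProjAlg {s : Set (Set Plane)} (hs : s.Nonempty) : IsProjAlg (gen s) := by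
  set C := FirstOrder.Language.Substructure.closure L s
  refine ⟨hs.mono (subset_gen s), ?_, ?_, ?_, ?_, ?_, ?_⟩
  · intro S hS T hT
    exact C.fun_mem (n := 2) Fn.union ![S, T] (by intro i; fin_cases i; exacts [hS, hT])
  · intro S hS T hT
    exact C.fun_mem (n := 2) Fn.inter ![S, T] (by intro i; fin_cases i; exacts [hS, hT])
  · intro S hS
    exact C.fun_mem (n := 1) Fn.compl ![S] (by intro i; fin_cases i; exact hS)
  · intro S hS
    exact C.fun_mem (n := 1) Fn.pr1 ![S] (by intro i; fin_cases i; exact hS)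
  · intro S hS
    exact C.fun_mem (n := 1) Fn.pr2 ![S] (by intro i; fin_cases i; exact hS)
  · intro S hS T hT _ _
    exact C.fun_mem (n := 2) Fn.dprod ![S, T] (by intro i; fin_cases i; exacts [hS, hT])

theorem card_gen (s : Set (Set Plane)) : #(gen s) ≤ max ℵ₀ #s := by
  have h := FirstOrder.Language.Substructure.lift_card_closure_le (L := L) (s := s)
  have h1 : #(Σ n, L.Functions n) ≤ ℵ₀ := Cardinal.mk_le_aleph0
  rw [Cardinal.lift_id, Cardinal.lift_id] at h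
  have h2 : #(gen s) ≤ max ℵ₀ (#s + #(Σ n, L.Functions n)) := by
    refine h.trans (le_of_eq ?_)
    simp only [Cardinal.lift_id]
  refine h2.trans (max_le (le_max_left _ _) ?_)
  refine (add_le_add_right h1 _).trans ?_
  rw [Cardinal.add_eq_max' le_rfl]
  exact (max_comm _ _).le

/-! ### The function given by an isomorphism -/

/-- The function given by an embedding. -/
theorem exists_fun {𝒜 𝒰 : Set (Set Plane)} (h : Embeds 𝒜 𝒰) (hA : IsProjAlg 𝒜) :
    ∃ F : Set Plane → Set Plane, (∀ S ∈ 𝒜, F S ∈ 𝒰) ∧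
      (∀ S ∈ 𝒜, ∀ T ∈ 𝒜, F S = F T → S = T) ∧
      (∀ S ∈ 𝒜, ∀ T ∈ 𝒜, F (S ∪ T) = F S ∪ F T) ∧
      (∀ S ∈ 𝒜, ∀ T ∈ 𝒜, F (S ∩ T) = F S ∩ F T) ∧
      (∀ S ∈ 𝒜, F Sᶜ = (F S)ᶜ) ∧
      (∀ S ∈ 𝒜, F (pr1 S) = pr1 (F S)) ∧
      (∀ S ∈ 𝒜, F (pr2 S) = pr2 (F S)) ∧
      (∀ A ∈ 𝒜, ∀ B ∈ 𝒜, A ⊆ axisX → B ⊆ axisY → F (dprod A B) = dprod (F A) (F B)) := by
  classical
  obtain ⟨ℬ, hB, -, f, hf⟩ := h
  let F : Set Plane → Set Plane := fun S => if h : S ∈ 𝒜 then (f ⟨S, h⟩ : Set Plane) else ∅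
  have hF : ∀ S (h : S ∈ 𝒜), F S = f ⟨S, h⟩ := fun S h => dif_pos h
  refine ⟨F, ?_, ?_, ?_, ?_, ?_, ?_, ?_, ?_⟩
  · intro S hS
    rw [hF S hS]
    exact hB (f ⟨S, hS⟩).2
  · intro S hS T hT hST
    rw [hF S hS, hF T hT] at hST
    have := f.injective (Subtype.ext hST)
    exact congrArg Subtype.val this
  · intro S hS T hT
    rw [hF S hS, hF T hT, hF _ (hA.union S hS T hT)]
    exact hf.union ⟨S, hS⟩ ⟨T, hT⟩ _ rfl
  · intro S hS T hT
    rw [hF S hS, hF T hT, hF _ (hA.inter S hS T hT)]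
    exact hf.inter ⟨S, hS⟩ ⟨T, hT⟩ _ rfl
  · intro S hS
    rw [hF S hS, hF _ (hA.compl S hS)]
    exact hf.compl ⟨S, hS⟩ _ rfl
  · intro S hS
    rw [hF S hS, hF _ (hA.pr1 S hS)]
    exact hf.pr1 ⟨S, hS⟩ _ rfl
  · intro S hS
    rw [hF S hS, hF _ (hA.pr2 S hS)]
    exact hf.pr2 ⟨S, hS⟩ _ rfl
  · intro S hS T hT h1 h2
    rw [hF S hS, hF T hT, hF _ (hA.dprod S hS T hT h1 h2)]
    exact hf.dprod ⟨S, hS⟩ ⟨T, hT⟩ _ h1 h2 rfl

theorem pr1_univ : pr1 univ = axisX := by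
  ext p
  simp [pr1, axisX]

theorem pr2_univ : pr2 univ = axisY := by
  ext p
  simp [pr2, axisY]

theorem pr1_sub (S : Set Plane) : pr1 S ⊆ axisX := fun _ h => h.1

theorem pr2_sub (S : Set Plane) : pr2 S ⊆ axisY := fun _ h => h.1

/-! ### The lower bound -/

/-- The terms `A n` and `B n`. -/
def AB (u : Set Plane) : ℕ → Set Plane × Set Plane
  | 0 => (axisX ∩ axisY, axisX ∩ axisY)
  | n + 1 =>
    (pr1 (u ∩ dprod axisX (AB u n).2) ∩ ((AB u n).1)ᶜ,
      pr2 (u ∩ dprod (pr1 (u ∩ dprod axisX (AB u n).2) ∩ ((AB u n).1)ᶜ) axisY) ∩ ((AB u n).2)ᶜ)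

/-- The generator `G`. -/
def G : Set Plane := {p | ∃ n : ℕ, p = ((n : ℝ), (n : ℝ)) ∨ p = ((n : ℝ) + 1, (n : ℝ))}

/-- The generator `P`. -/
def P (s : Set ℕ) : Set Plane := {p | p.2 = 0 ∧ ∃ n ∈ s, p.1 = (n : ℝ)}

theorem AB_G (n : ℕ) : AB G n = ({((n : ℝ), 0)}, {(0, (n : ℝ))}) := by
  induction n with
  | zero =>
    have h : axisX ∩ axisY = {((0 : ℝ), (0 : ℝ))} := by
      ext ⟨x, y⟩
      simp only [axisX, axisY, mem_inter_iff, mem_ofPred_eq, mem_singleton_iff, Prod.mk.injEq]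
      tauto
    simp only [AB, h, Nat.cast_zero]
  | succ n ih =>
    have h1 : pr1 (G ∩ dprod axisX {(0, (n : ℝ))}) ∩ ({((n : ℝ), 0)})ᶜ = {((n : ℝ) + 1, 0)} := by
      ext ⟨x, y⟩
      simp only [pr1, G, dprod, axisX, mem_inter_iff, mem_ofPred_eq, mem_singleton_iff,
        Prod.mk.injEq, mem_compl_iff]
      constructor
      · rintro ⟨⟨hy, z, ⟨m, hm⟩, -, -, hz⟩, hne⟩
        refine ⟨?_, hy⟩
        rcases hm with ⟨hx, hz'⟩ | ⟨hx, hz'⟩
        · exact absurd ⟨by rw [hx, ← hz', hz], hy⟩ hne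
        · rw [hx, ← hz', hz]
      · rintro ⟨hx, hy⟩
        refine ⟨⟨hy, n, ⟨n, Or.inr ⟨hx, rfl⟩⟩, trivial, trivial, rfl⟩, ?_⟩
        rintro ⟨h, -⟩
        rw [hx] at h
        linarith
    have h2 : pr2 (G ∩ dprod {((n : ℝ) + 1, 0)} axisY) ∩ ({(0, (n : ℝ))})ᶜ =
        {(0, (n : ℝ) + 1)} := by
      ext ⟨x, y⟩
      simp only [pr2, G, dprod, axisY, mem_inter_iff, mem_ofPred_eq, mem_singleton_iff,
        Prod.mk.injEq, mem_compl_iff]
      constructor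
      · rintro ⟨⟨hx, z, ⟨m, hm⟩, ⟨hz, -⟩, -⟩, hne⟩
        refine ⟨hx, ?_⟩
        rcases hm with ⟨hz', hy⟩ | ⟨hz', hy⟩
        · rw [hy, ← hz', hz]
        · have h3 : y = n := by rw [hy]; linarith
          exact absurd ⟨hx, h3⟩ hne
      · rintro ⟨hx, hy⟩
        refine ⟨⟨hx, n + 1, ⟨n + 1, Or.inl ⟨by push_cast; rfl, by rw [hy]; push_cast; rfl⟩⟩,
          ⟨rfl, trivial⟩, trivial⟩, ?_⟩
        rintro ⟨-, h⟩
        rw [hy] at h
        linarith
    have h3 : AB G (n + 1) = (pr1 (G ∩ dprod axisX (AB G n).2) ∩ ((AB G n).1)ᶜ,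
      pr2 (G ∩ dprod (pr1 (G ∩ dprod axisX (AB G n).2) ∩ ((AB G n).1)ᶜ) axisY) ∩
        ((AB G n).2)ᶜ) := rfl
    rw [h3, ih]
    simp only [h1, h2]
    push_cast
    rfl

theorem A_inter_P (s : Set ℕ) (n : ℕ) : ((AB G n).1 ∩ P s).Nonempty ↔ n ∈ s := by
  rw [AB_G]
  constructor
  · rintro ⟨p, hp, -, m, hm, h⟩
    rw [mem_singleton_iff] at hp
    rw [hp] at h
    have h' : (n : ℝ) = (m : ℝ) := h
    have : n = m := by exact_mod_cast h'
    rwa [this]
  · intro h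
    exact ⟨((n : ℝ), 0), rfl, rfl, n, h, rfl⟩

theorem lower {𝒰 : Set (Set Plane)} (hU : IsUniversal 𝒰) : 𝔠 ≤ #𝒰 := by
  have key : ∀ s : Set ℕ, ∃ uv : 𝒰 × 𝒰, ∀ n, n ∈ s ↔
      ((AB (uv.1 : Set Plane) n).1 ∩ uv.2).Nonempty := by
    intro s
    have hne : ({G, P s} : Set (Set Plane)).Nonempty := ⟨G, by simp⟩
    have hA := gen_isProjAlg hne
    have hc : (gen {G, P s}).Countable := by
      rw [← Cardinal.le_aleph0_iff_set_countable]
      refine (card_gen _).trans (max_le le_rfl ?_)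
      rw [Cardinal.le_aleph0_iff_set_countable]
      exact (Set.toFinite _).countable
    obtain ⟨F, hmem, hinj, hun, hin, hco, h1, h2, hpr⟩ := exists_fun (hU.2 _ hA hc) hA
    have hG : G ∈ gen {G, P s} := subset_gen _ (by simp)
    have hP : P s ∈ gen {G, P s} := subset_gen _ (by simp)
    have huniv : (univ : Set Plane) ∈ gen {G, P s} := by
      rw [← union_compl_self G]
      exact hA.union _ hG _ (hA.compl _ hG)
    have hempty : (∅ : Set Plane) ∈ gen {G, P s} := by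
      rw [← compl_univ]
      exact hA.compl _ huniv
    have hX : axisX ∈ gen {G, P s} := by
      rw [← pr1_univ]
      exact hA.pr1 _ huniv
    have hY : axisY ∈ gen {G, P s} := by
      rw [← pr2_univ]
      exact hA.pr2 _ huniv
    have Funiv : F univ = univ := by
      conv_lhs => rw [← union_compl_self G]
      rw [hun _ hG _ (hA.compl _ hG), hco _ hG, union_compl_self]
    have Fempty : F ∅ = ∅ := by
      rw [← compl_univ, hco _ huniv, Funiv]
    have FX : F axisX = axisX := by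
      conv_lhs => rw [← pr1_univ]
      rw [h1 _ huniv, Funiv, pr1_univ]
    have FY : F axisY = axisY := by
      conv_lhs => rw [← pr2_univ]
      rw [h2 _ huniv, Funiv, pr2_univ]
    have hAB : ∀ n, ((AB G n).1 ∈ gen {G, P s} ∧ (AB G n).1 ⊆ axisX ∧
        F (AB G n).1 = (AB (F G) n).1) ∧
        ((AB G n).2 ∈ gen {G, P s} ∧ (AB G n).2 ⊆ axisY ∧ F (AB G n).2 = (AB (F G) n).2) := by
      intro n
      induction n with
      | zero =>
        have h3 : axisX ∩ axisY ∈ gen {G, P s} := hA.inter _ hX _ hY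
        have h4 : F (axisX ∩ axisY) = axisX ∩ axisY := by rw [hin _ hX _ hY, FX, FY]
        exact ⟨⟨h3, inter_subset_left, h4⟩, ⟨h3, inter_subset_right, h4⟩⟩
      | succ n ih =>
        obtain ⟨⟨a1, a2, a3⟩, ⟨b1, b2, b3⟩⟩ := ih
        have c1 : dprod axisX (AB G n).2 ∈ gen {G, P s} := hA.dprod _ hX _ b1 subset_rfl b2
        have c2 : G ∩ dprod axisX (AB G n).2 ∈ gen {G, P s} := hA.inter _ hG _ c1
        have c3 : pr1 (G ∩ dprod axisX (AB G n).2) ∈ gen {G, P s} := hA.pr1 _ c2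
        have c4 : ((AB G n).1)ᶜ ∈ gen {G, P s} := hA.compl _ a1
        have c5 : (AB G (n + 1)).1 ∈ gen {G, P s} := hA.inter _ c3 _ c4
        have c6 : (AB G (n + 1)).1 ⊆ axisX := inter_subset_left.trans (pr1_sub _)
        have c7 : F (AB G (n + 1)).1 = (AB (F G) (n + 1)).1 := by
          change F (pr1 (G ∩ dprod axisX (AB G n).2) ∩ ((AB G n).1)ᶜ) =
            pr1 (F G ∩ dprod axisX (AB (F G) n).2) ∩ ((AB (F G) n).1)ᶜ
          rw [hin _ c3 _ c4, h1 _ c2, hin _ hG _ c1, hpr _ hX _ b1 subset_rfl b2, FX, b3,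
            hco _ a1, a3]
        refine ⟨⟨c5, c6, c7⟩, ?_⟩
        have d1 : dprod (AB G (n + 1)).1 axisY ∈ gen {G, P s} :=
          hA.dprod _ c5 _ hY c6 subset_rfl
        have d2 : G ∩ dprod (AB G (n + 1)).1 axisY ∈ gen {G, P s} := hA.inter _ hG _ d1
        have d3 : pr2 (G ∩ dprod (AB G (n + 1)).1 axisY) ∈ gen {G, P s} := hA.pr2 _ d2
        have d4 : ((AB G n).2)ᶜ ∈ gen {G, P s} := hA.compl _ b1
        refine ⟨hA.inter _ d3 _ d4, inter_subset_left.trans (pr2_sub _), ?_⟩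
        change F (pr2 (G ∩ dprod (AB G (n + 1)).1 axisY) ∩ ((AB G n).2)ᶜ) =
            pr2 (F G ∩ dprod (AB (F G) (n + 1)).1 axisY) ∩ ((AB (F G) n).2)ᶜ
        rw [hin _ d3 _ d4, h2 _ d2, hin _ hG _ d1, hpr _ c5 _ hY c6 subset_rfl, FY, b3.symm,
          hco _ b1, c7]
    refine ⟨(⟨F G, hmem _ hG⟩, ⟨F (P s), hmem _ hP⟩), fun n => ?_⟩
    obtain ⟨⟨a1, -, a3⟩, -⟩ := hAB n
    rw [← A_inter_P s n]
    change _ ↔ ((AB (F G) n).1 ∩ F (P s)).Nonempty
    rw [← a3, ← hin _ a1 _ hP, nonempty_iff_ne_empty, nonempty_iff_ne_empty]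
    refine not_congr ⟨fun h => by rw [h, Fempty], fun h => ?_⟩
    exact hinj _ (hA.inter _ a1 _ hP) _ hempty (by rw [h, Fempty])
  choose Φ hΦ using key
  have hΦi : Function.Injective Φ := by
    intro s t h
    ext n
    rw [hΦ s n, hΦ t n, h]
  have h1 : 𝔠 ≤ #𝒰 * #𝒰 := by
    rw [← Cardinal.mk_set_nat, Cardinal.mul_def]
    exact Cardinal.mk_le_of_injective hΦi
  by_contra hlt
  push Not at hlt
  rcases le_or_gt ℵ₀ #𝒰 with h | h
  · rw [Cardinal.mul_eq_self h] at h1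
    exact absurd h1 (not_le.2 hlt)
  · exact absurd (h1.trans (Cardinal.mul_lt_aleph0 h h).le) (not_le.2 Cardinal.aleph0_lt_continuum)

/-! ### The upper bound -/

/-- The isomorphism type of an algebra with an enumeration. -/
def code (e : ℕ → Set Plane) : Set (Fin 7 × ℕ × ℕ × ℕ) :=
  {x | (x.1 = 0 ∧ e x.2.1 = e x.2.2.1) ∨
    (x.1 = 1 ∧ e x.2.2.2 = e x.2.1 ∪ e x.2.2.1) ∨
    (x.1 = 2 ∧ e x.2.2.2 = e x.2.1 ∩ e x.2.2.1) ∨
    (x.1 = 3 ∧ e x.2.2.1 = (e x.2.1)ᶜ) ∨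
    (x.1 = 4 ∧ e x.2.2.1 = pr1 (e x.2.1)) ∨
    (x.1 = 5 ∧ e x.2.2.1 = pr2 (e x.2.1)) ∨
    (x.1 = 6 ∧ e x.2.2.2 = dprod (e x.2.1) (e x.2.2.1))}

theorem code_eq {e e' : ℕ → Set Plane} (h : code e = code e') :
    (∀ i j, e i = e j ↔ e' i = e' j) ∧
    (∀ i j k, e k = e i ∪ e j ↔ e' k = e' i ∪ e' j) ∧
    (∀ i j k, e k = e i ∩ e j ↔ e' k = e' i ∩ e' j) ∧
    (∀ i j, e j = (e i)ᶜ ↔ e' j = (e' i)ᶜ) ∧
    (∀ i j, e j = pr1 (e i) ↔ e' j = pr1 (e' i)) ∧
    (∀ i j, e j = pr2 (e i) ↔ e' j = pr2 (e' i)) ∧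
    (∀ i j k, e k = dprod (e i) (e j) ↔ e' k = dprod (e' i) (e' j)) := by
  have h' : ∀ x, x ∈ code e ↔ x ∈ code e' := fun x => by rw [h]
  refine ⟨fun i j => ?_, fun i j k => ?_, fun i j k => ?_, fun i j => ?_, fun i j => ?_,
    fun i j => ?_, fun i j k => ?_⟩
  · simpa [code] using h' (0, i, j, 0)
  · simpa [code] using h' (1, i, j, k)
  · simpa [code] using h' (2, i, j, k)
  · simpa [code] using h' (3, i, j, 0)
  · simpa [code] using h' (4, i, j, 0)
  · simpa [code] using h' (5, i, j, 0)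
  · simpa [code] using h' (6, i, j, k)

open Classical in
/-- A representative of the isomorphism type. -/
noncomputable def rep (c : Set (Fin 7 × ℕ × ℕ × ℕ)) : ℕ → Set Plane :=
  if h : ∃ e, IsProjAlg (range e) ∧ code e = c then h.choose else fun _ => ∅

theorem rep_spec {e : ℕ → Set Plane} (h : IsProjAlg (range e)) :
    IsProjAlg (range (rep (code e))) ∧ code (rep (code e)) = code e := by
  have h1 : ∃ e', IsProjAlg (range e') ∧ code e' = code e := ⟨e, h, rfl⟩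
  rw [rep, dif_pos h1]
  exact h1.choose_spec

/-- All the representatives. -/
def reps : Set (Set Plane) :=
  range (fun p : Set (Fin 7 × ℕ × ℕ × ℕ) × ℕ => rep p.1 p.2)

theorem card_reps : Cardinal.mk reps ≤ 𝔠 := by
  refine Cardinal.mk_range_le.trans ?_
  have h1 : #(Fin 7 × ℕ × ℕ × ℕ) = ℵ₀ := Cardinal.mk_eq_aleph0 _
  rw [Cardinal.mk_prod, Cardinal.mk_set, h1]
  simp

theorem embeds_of_code {e e' : ℕ → Set Plane} (h : code e = code e') (he' : IsProjAlg (range e'))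
    {𝒰 : Set (Set Plane)} (hU : range e' ⊆ 𝒰) : Embeds (range e) 𝒰 := by
  obtain ⟨heq, h1, h2, h3, h4, h5, h6⟩ := code_eq h
  let g : range e → range e' := fun S => ⟨e' S.2.choose, mem_range_self _⟩
  have hg : ∀ i, (g ⟨e i, mem_range_self i⟩ : Set Plane) = e' i := by
    intro i
    have : ∃ j, e j = e i := ⟨i, rfl⟩
    exact (heq _ _).1 this.choose_spec
  have hbij : Function.Bijective g := by
    constructor
    · rintro ⟨_, i, rfl⟩ ⟨_, j, rfl⟩ hij
      have h7 := congrArg Subtype.val hij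
      rw [hg, hg] at h7
      exact Subtype.ext ((heq _ _).2 h7)
    · rintro ⟨_, i, rfl⟩
      exact ⟨⟨e i, mem_range_self i⟩, Subtype.ext (hg i)⟩
  refine ⟨range e', hU, he', Equiv.ofBijective g hbij, ?_, ?_, ?_, ?_, ?_, ?_⟩
  · rintro ⟨_, i, rfl⟩ ⟨_, j, rfl⟩ ⟨_, k, rfl⟩ hR
    simp only [Equiv.ofBijective_apply, hg]
    exact (h1 i j k).1 hR
  · rintro ⟨_, i, rfl⟩ ⟨_, j, rfl⟩ ⟨_, k, rfl⟩ hR
    simp only [Equiv.ofBijective_apply, hg]
    exact (h2 i j k).1 hR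
  · rintro ⟨_, i, rfl⟩ ⟨_, j, rfl⟩ hR
    simp only [Equiv.ofBijective_apply, hg]
    exact (h3 i j).1 hR
  · rintro ⟨_, i, rfl⟩ ⟨_, j, rfl⟩ hR
    simp only [Equiv.ofBijective_apply, hg]
    exact (h4 i j).1 hR
  · rintro ⟨_, i, rfl⟩ ⟨_, j, rfl⟩ hR
    simp only [Equiv.ofBijective_apply, hg]
    exact (h5 i j).1 hR
  · rintro ⟨_, i, rfl⟩ ⟨_, j, rfl⟩ ⟨_, k, rfl⟩ _ _ hR
    simp only [Equiv.ofBijective_apply, hg]
    exact (h6 i j k).1 hR

theorem upper : ∃ 𝒰 : Set (Set Plane), IsUniversal 𝒰 ∧ #𝒰 ≤ 𝔠 := by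
  have hne : reps.Nonempty := ⟨rep ∅ 0, ⟨(∅, 0), rfl⟩⟩
  refine ⟨gen reps, ⟨gen_isProjAlg hne, ?_⟩, ?_⟩
  · intro 𝒜 hA hc
    obtain ⟨e, rfl⟩ := hc.exists_eq_range hA.nonempty
    obtain ⟨h1, h2⟩ := rep_spec hA
    refine embeds_of_code h2.symm h1 (Subset.trans ?_ (subset_gen _))
    rintro _ ⟨i, rfl⟩
    exact ⟨(code e, i), rfl⟩
  · refine (card_gen _).trans (max_le Cardinal.aleph0_le_continuum card_reps)

/-- **Q1: no.** No countable projective algebra is universal, i.e. contains an isomorphic copy of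
each countable projective algebra as a subalgebra. More precisely, every universal projective
algebra has at least continuum many members, and some universal projective algebra has exactly
continuum many members. -/
theorem result :
    (¬ ∃ 𝒰 : Set (Set Plane), 𝒰.Countable ∧ IsUniversal 𝒰) ∧
    (∀ 𝒰 : Set (Set Plane), IsUniversal 𝒰 → 𝔠 ≤ #𝒰) ∧
    (∃ 𝒰 : Set (Set Plane), IsUniversal 𝒰 ∧ #𝒰 = 𝔠) := by
  refine ⟨?_, fun 𝒰 h => lower h, ?_⟩
  · rintro ⟨𝒰, hc, hU⟩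
    rw [← Cardinal.le_aleph0_iff_set_countable] at hc
    exact absurd ((lower hU).trans hc) (not_le.2 Cardinal.aleph0_lt_continuum)
  · obtain ⟨𝒰, hU, h⟩ := upper
    exact ⟨𝒰, hU, le_antisymm h (lower hU)⟩

end Pool.Agent.Results.MP_3db952_lc.UniversalContinuum
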